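import Pool.Agent.Q291.MK.Stm4
import Pool.Agent.Q291.MK.Base

/-!
# The bare coupling as a function of the renormalised one
-/

namespace Pool.Agent.Q291.MK

open Filter Topology

lemma pois_zero_lt_one {x : ℝ} (hx : 0 < x) : (pois x) 0 < 1 := by
  unfold pois
  simp only [pow_zero, mul_one, Nat.factorial_zero, Nat.cast_one, div_one]
  have := Real.exp_lt_exp.mpr (show -x < 0 by linarith)
  rwa [Real.exp_zero] at this

lemma mean_pois {x : ℝ} (hx : 0 < x) : mean (pois x) = x := (bPOIS x hx.le).2.1

lemma mean_iter_anti {x : ℝ} (hx : 0 < x) : Antitone fun n => mean (R^[n] (pois x)) :=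
  antitone_nat_of_succ_le (bST _ (bPOIS x hx.le).1 (pois_zero_lt_one hx)).2.2.1

theorem t_BEX : P_BMON → P_BEX := by
  intro hB C3 C8 C12 M e C hC m N hm
  obtain ⟨D, hD, hB⟩ := hB C3 C8 C12 M e C hC
  have hM := hC.hM
  -- monotonicity with Lipschitz bounds as soon as the levels of the smaller one are large
  have key : ∀ (N : ℕ) (x y : ℝ), 0 < x → x ≤ y → (∀ n < N, M ≤ mean (R^[n] (pois x))) →
      3 / 4 * (y - x) ≤ mean (R^[N] (pois y)) - mean (R^[N] (pois x)) ∧
      mean (R^[N] (pois y)) - mean (R^[N] (pois x)) ≤ 5 / 4 * (y - x) := by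
    intro N x y hx hxy h
    obtain ⟨h1, h2, -⟩ := hB x y N hxy h hx N le_rfl
    exact ⟨h1, h2⟩
  have lev : ∀ (N : ℕ) (x : ℝ), 0 < x → m ≤ mean (R^[N] (pois x)) →
      ∀ n ≤ N, M ≤ mean (R^[n] (pois x)) := by
    intro N x hx h n hn
    have := mean_iter_anti hx hn
    simp only at this
    linarith
  have ex : ∀ N : ℕ, ∃ x : ℝ, m ≤ x ∧ mean (R^[N] (pois x)) = m := by
    intro N
    induction N with
    | zero => exact ⟨m, le_rfl, by simpa using mean_pois (by linarith)⟩
    | succ N ih =>
      obtain ⟨x0, hx0, hx0m⟩ := ih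
      have hx0p : 0 < x0 := by linarith
      have l0 := lev N x0 hx0p hx0m.ge
      have l1 : ∀ n < N + 1, M ≤ mean (R^[n] (pois x0)) := fun n hn => l0 n (by omega)
      have hle : mean (R^[N + 1] (pois x0)) ≤ m := by
        have := mean_iter_anti hx0p (Nat.le_succ N)
        simp only [Nat.succ_eq_add_one] at this
        linarith
      set g : ℝ := 4 / 3 * (m - mean (R^[N + 1] (pois x0))) with hg
      have hg0 : 0 ≤ g := by rw [hg]; linarith
      have hge : m ≤ mean (R^[N + 1] (pois (x0 + g))) := by
        have := (key (N + 1) x0 (x0 + g) hx0p (by linarith) l1).1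
        rw [hg] at this ⊢
        linarith
      -- all levels stay large above x0
      have l2 : ∀ x, x0 ≤ x → ∀ n < N + 1, M ≤ mean (R^[n] (pois x)) := by
        intro x hx n hn
        have := (key n x0 x hx0p hx (fun k hk => l1 k (by omega))).1
        have := l1 n hn
        linarith
      have hcont : ContinuousOn (fun x => mean (R^[N + 1] (pois x))) (Set.Icc x0 (x0 + g)) := by
        have hL : LipschitzOnWith (Real.toNNReal (5 / 4))
            (fun x => mean (R^[N + 1] (pois x))) (Set.Icc x0 (x0 + g)) := by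
          refine LipschitzOnWith.of_dist_le_mul fun x hx y hy => ?_
          rw [Real.coe_toNNReal _ (by norm_num), Real.dist_eq, Real.dist_eq]
          rcases le_total x y with hxy | hxy
          · obtain ⟨h1, h2⟩ := key (N + 1) x y (by linarith [hx.1]) hxy (l2 x hx.1)
            rw [abs_sub_comm, abs_of_nonneg (by linarith), abs_sub_comm x y,
              abs_of_nonneg (by linarith : (0:ℝ) ≤ y - x)]
            exact h2
          · obtain ⟨h1, h2⟩ := key (N + 1) y x (by linarith [hy.1]) hxy (l2 y hy.1)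
            rw [abs_of_nonneg (by linarith), abs_of_nonneg (by linarith : (0:ℝ) ≤ x - y)]
            exact h2
        exact hL.continuousOn
      obtain ⟨x, hx, hxm⟩ := intermediate_value_Icc (by linarith : x0 ≤ x0 + g) hcont
        (⟨hle, hge⟩ : m ∈ Set.Icc _ _)
      exact ⟨x, hx0.trans hx.1, hxm⟩
  obtain ⟨x, hx, hxm⟩ := ex N
  refine ⟨x, hx, hxm, fun y hy hym => ?_⟩
  have hxp : 0 < x := by linarith
  rcases le_total x y with hxy | hxy
  · have := (key N x y hxp hxy (fun n hn => lev N x hxp hxm.ge n hn.le)).1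
    linarith
  · have := (key N y x hy hxy (fun n hn => lev N y hy hym.ge n hn.le)).1
    linarith

end Pool.Agent.Q291.MK
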