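import Pool.Agent.Q291.MK.Stm4
import Pool.Agent.Q291.MK.Base

/-!
# All constants of the weak coupling analysis
-/

namespace Pool.Agent.Q291.MK

open Filter Topology

lemma vr_nonneg {a : ℕ → ℝ} (ha : Law a) : 0 ≤ vr a :=
  tsum_nonneg fun k => mul_nonneg (ha.nn k) (sq_nonneg _)

lemma mean_nonneg {a : ℕ → ℝ} (ha : Law a) : 0 ≤ mean a :=
  tsum_nonneg fun k => mul_nonneg (ha.nn k) (Nat.cast_nonneg k)

lemma ratio_nonneg {a : ℕ → ℝ} (ha : Law a) : 0 ≤ vr a / mean a :=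
  div_nonneg (vr_nonneg ha) (mean_nonneg ha)

lemma ratio_le_one {C3 C8 : ℝ} {a : ℕ → ℝ} (ha : Cls C3 C8 a) : vr a / mean a ≤ 1 :=
  div_le_one_of_le₀ ha.vr_le (mean_nonneg ha.toLaw)

lemma one_le_wt {e m : ℝ} (he : 0 ≤ e) (hm : 0 ≤ m) (J : ℕ) : 1 ≤ wt e m J := by
  unfold wt
  have : 0 ≤ ((J:ℝ) - m) ^ 10 / m ^ 5 :=
    div_nonneg (Even.pow_nonneg (by decide) _) (pow_nonneg hm 5)
  nlinarith [mul_nonneg he this]

lemma Nr.rho_nonneg {e c ρ : ℝ} {a h : ℕ → ℝ} (he : 0 ≤ e) (ha : Law a) (H : Nr e a h c ρ) :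
    0 ≤ ρ := by
  have hT : Tst e (mean a) (fun _ => 0) :=
    ⟨PB.const 0, fun J => by
      simp only [dl, sub_self, abs_zero]
      exact zero_le_one.trans (one_le_wt he (mean_nonneg ha) J)⟩
  exact (abs_nonneg _).trans (H.bd _ hT)

lemma Nr.dv_le {e c ρ : ℝ} {a h : ℕ → ℝ} (he : 0 ≤ e) (ha : AM a) (H : Nr e a h c ρ) :
    |dv a h| ≤ |c| + 2 * ρ := by
  set m := mean a with hm
  have hPB : PB (fun k : ℕ => ((k:ℝ) - m)) := PB.id.sub (PB.const m)
  have hdl : ∀ k : ℕ, dl (fun k : ℕ => ((k:ℝ) - m) ^ 2 / 2) k = ((k:ℝ) - m) + 1 / 2 := by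
    intro k
    simp only [dl]
    push_cast
    ring
  have hdl' : dl (fun k : ℕ => ((k:ℝ) - m) ^ 2 / 2) = fun k : ℕ => ((k:ℝ) - m) + 1 / 2 :=
    funext hdl
  have hT : Tst e m (fun k : ℕ => ((k:ℝ) - m) ^ 2 / 2) := by
    refine ⟨?_, fun J => ?_⟩
    · have := (hPB.pow 2).mul (PB.const (1 / 2))
      simpa [div_eq_mul_inv] using this
    · rw [hdl']
      have : dl (fun k : ℕ => ((k:ℝ) - m) + 1 / 2) J = 1 := by
        simp only [dl]; push_cast; ring
      rw [this, abs_one]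
      exact one_le_wt he (mean_nonneg ha.toLaw) J
  have h1 := H.bd _ hT
  have h2 : E a (dl (fun k : ℕ => ((k:ℝ) - m) ^ 2 / 2)) = 1 / 2 := by
    rw [hdl', ha.E_add hPB (PB.const _), ha.E_sub PB.id (PB.const m), ha.toLaw.E_const,
      ha.toLaw.E_const]
    have : E a (fun k => (k:ℝ)) = m := rfl
    rw [this]; ring
  have h3 : E h (fun k : ℕ => ((k:ℝ) - m) ^ 2 / 2) = dv a h / 2 := by
    have := E_const_mul (a := h) (1 / 2) (fun k : ℕ => ((k:ℝ) - m) ^ 2)
    rw [dv, ← hm]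
    rw [show (fun k : ℕ => ((k:ℝ) - m) ^ 2 / 2) = fun k : ℕ => 1 / 2 * ((k:ℝ) - m) ^ 2 from
      funext fun k => by ring, this]
    ring
  rw [h2, h3] at h1
  rw [abs_le] at h1 ⊢
  have h4 := neg_abs_le c
  have h5 := le_abs_self c
  constructor <;> linarith [h1.1, h1.2]

lemma Pres.next {C3 C8 C12 M D : ℝ} (hP : Pres C3 C8 C12 M D) {a : ℕ → ℝ}
    (ha : Cl C3 C8 C12 a) (hM : 10 ≤ M) (hm : 4 * M + 100 * D + 6 ≤ mean a) (hD : 0 < D) :
    Cl C3 C8 C12 (R a) := by
  have r0 := ratio_nonneg ha.toLaw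
  have r1 := ratio_le_one ha.toCls
  obtain ⟨hT, -, h1, -⟩ := hP a ha (by linarith)
  have hpos : 0 < mean a := by linarith
  have e1 : D / mean a ≤ 1 / 100 := by
    rw [div_le_iff₀ hpos]; nlinarith
  rw [abs_le] at h1
  have m1 : mean a / 2 - 1 ≤ mean (T a) := by linarith [h1.1]
  have r0' := ratio_nonneg hT.toLaw
  have r1' := ratio_le_one hT.toCls
  obtain ⟨hTT, -, h2, -⟩ := hP (T a) hT (by linarith)
  have hpos' : 0 < mean (T a) := by linarith
  have e2 : D / mean (T a) ≤ 1 / 10 := by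
    rw [div_le_iff₀ hpos']; nlinarith
  rw [abs_le] at h2
  have m2 : M ≤ mean (T (T a)) := by linarith [h2.1]
  obtain ⟨-, hS, -⟩ := hP (T (T a)) hTT m2
  have m3 : M ≤ mean (S (T (T a))) := by
    rw [(bSM _ hTT.toAM).1]; linarith
  obtain ⟨-, hSS, -⟩ := hP _ hS m3
  exact hSS

theorem t_CST : P_CLP → P_MIX → P_NR → P_SQ2 → P_CST := by
  intro hCLP hMIX hNR hSQ
  obtain ⟨C3, C8, C12, M0, D0, h3, h8, h12, hM0, hD0, hP, hP', hpois⟩ := hCLP
  obtain ⟨e, D, M1, he, hD, hM01, hNR⟩ := hNR (C3 + 3) (C8 + 1) (C12 + 1) M0 D0 (by linarith)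
    (by linarith) (by linarith) hM0 hD0 hP'
  obtain ⟨M2, hM2, hMIX⟩ := hMIX C3 C8 C12 h3 h8 h12
  obtain ⟨M3, C', hM3, hC', hSQ⟩ := hSQ (max 1 D) (le_max_left _ _)
  have hDD : D ≤ max 1 D := le_max_right _ _
  obtain ⟨C, hCdef⟩ : ∃ C : ℝ, C = 1 + C' + D := ⟨_, rfl⟩
  obtain ⟨M, hMdef⟩ : ∃ M : ℝ, M = 100 * C + 4 * M0 + 106 + M1 + M2 + M3 + 100 * D0 := ⟨_, rfl⟩
  have hstep : ∀ a : ℕ → ℝ, Cl (C3 + 3) (C8 + 1) (C12 + 1) a → M ≤ mean a →
      Cl (C3 + 3) (C8 + 1) (C12 + 1) (R a) ∧ mean a - 4 ≤ mean (R a) ∧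
      mean (R a) ≤ mean a - 1 ∧ |vr (R a) / mean (R a) - (5 / 16 + vr a / mean a / 16)| ≤
        D / mean a ∧
      |(mean (R a) - 2 * (vr (R a) / mean (R a))) - (mean a - 2 * (vr a / mean a)) + 2| ≤
        D / mean a := by
    intro a ha hm
    obtain ⟨hR, hG, hs, -⟩ := hNR a ha (by linarith)
    have hpos : 0 < mean a := by linarith
    have e1 : D / mean a ≤ 1 / 100 := by
      rw [div_le_iff₀ hpos]; linarith
    have r0 := ratio_nonneg ha.toLaw
    have r1 := ratio_le_one ha.toCls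
    refine ⟨hR, ?_, ?_, hs, hG⟩
    · rw [abs_le] at hG hs
      linarith [hG.1, hs.1]
    · rw [abs_le] at hG hs
      linarith [hG.2, hs.2]
  refine ⟨C3, C8, C12, M, e, C, h3, h8, h12, by linarith, he, by linarith, by linarith,
    fun m hm => hpois m (by linarith), fun a ha hm => hP.next ha hM0 (by linarith) hD0,
    fun a ha hm => ?_, fun a b ha hb hm => hMIX a b ha hb (by linarith), ?_⟩
  · obtain ⟨k1, k2, k3', k4, k5⟩ := hstep a ha hm
    have hpos : 0 < mean a := by linarith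
    have : D / mean a ≤ C / mean a := by gcongr; linarith
    exact ⟨k1, k2, k3', k4.trans this, k5.trans this⟩
  · intro a h c ρ N ha hN hh
    have hρ : 0 ≤ ρ := hh.rho_nonneg he.le ha.toLaw
    -- the sequences
    obtain ⟨cc, hcc⟩ : ∃ cc : ℕ → ℝ, cc = fun n => E (hit a h n) (fun k => (k:ℝ)) := ⟨_, rfl⟩
    obtain ⟨rr, hr0, hrs⟩ : ∃ rr : ℕ → ℝ, rr 0 = ρ ∧ ∀ n, rr (n + 1) = 1 / 2 * rr n + D * |cc n| :=
      ⟨fun n => Nat.rec ρ (fun n r => 1 / 2 * r + D * |cc n|) n, rfl, fun n => rfl⟩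
    have hrn : ∀ n, 0 ≤ rr n := by
      intro n
      induction n with
      | zero => rw [hr0]; exact hρ
      | succ n ih => rw [hrs]; positivity
    have hc0 : cc 0 = c := by rw [hcc]; exact hh.mn
    have main : ∀ n ≤ N, Cl (C3 + 3) (C8 + 1) (C12 + 1) (R^[n] a) ∧
        Nr e (R^[n] a) (hit a h n) (cc n) (rr n) := by
      intro n
      induction n with
      | zero =>
        intro _
        rw [hc0, hr0]
        exact ⟨ha, hh⟩
      | succ n ih =>
        intro hn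
        obtain ⟨i1, i2⟩ := ih (by omega)
        obtain ⟨hR, -, -, hresp⟩ := hNR (R^[n] a) i1 (by linarith [hN n (by omega)])
        obtain ⟨c', hc', -⟩ := hresp _ _ _ i2 (hrn n)
        rw [Function.iterate_succ_apply']
        refine ⟨hR, ?_⟩
        have : c' = cc (n + 1) := by rw [hcc]; exact hc'.mn.symm
        rw [← this, hrs]
        exact hc'
    have flow : ∀ n < N,
        |cc (n + 1) - cc n + 15 / 8 * ((dv (R^[n] a) (hit a h n) -
          vr (R^[n] a) / mean (R^[n] a) * cc n) / mean (R^[n] a))| ≤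
          D * (|cc n| + rr n) / (mean (R^[n] a) * √(mean (R^[n] a))) ∧
        |dv (R^[n + 1] a) (hit a h (n + 1)) - (dv (R^[n] a) (hit a h n) / 16 + 5 / 16 * cc n)| ≤
          D * (|cc n| + rr n) / √(mean (R^[n] a)) := by
      intro n hn
      obtain ⟨i1, i2⟩ := main n (by omega)
      obtain ⟨hR, -, -, hresp⟩ := hNR (R^[n] a) i1 (by linarith [hN n (by omega)])
      obtain ⟨c', hc', hf1, hf2⟩ := hresp _ _ _ i2 (hrn n)
      have : c' = cc (n + 1) := by rw [hcc]; exact hc'.mn.symm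
      rw [← this, Function.iterate_succ_apply']
      exact ⟨hf1, hf2⟩
    have hsq := hSQ N (fun n => mean (R^[n] a)) (fun n => vr (R^[n] a) / mean (R^[n] a)) cc
      (fun n => dv (R^[n] a) (hit a h n)) rr
      (fun n hn => by linarith [hN n hn])
      (fun n hn => by
        obtain ⟨-, k2, k3', -⟩ := hstep _ (main n hn.le).1 (hN n hn)
        simp only [Function.iterate_succ_apply']
        exact ⟨k2, k3'⟩)
      (mean_nonneg (main N le_rfl).1.toLaw)
      (fun n hn => ⟨hrn n, ratio_nonneg (main n hn).1.toLaw, ratio_le_one (main n hn).1.toCls⟩)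
      (fun n hn => by
        obtain ⟨-, -, -, k4, -⟩ := hstep _ (main n hn.le).1 (hN n hn)
        simp only [Function.iterate_succ_apply']
        refine k4.trans ?_
        have : 0 ≤ mean (R^[n] a) := mean_nonneg (main n hn.le).1.toLaw
        gcongr)
      (fun n hn => by
        refine (flow n hn).1.trans ?_
        have : 0 ≤ mean (R^[n] a) := mean_nonneg (main n hn.le).1.toLaw
        have := hrn n
        gcongr)
      (fun n hn => by
        refine (flow n hn).2.trans ?_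
        have : 0 ≤ mean (R^[n] a) := mean_nonneg (main n hn.le).1.toLaw
        have := hrn n
        gcongr)
      (fun n hn => by
        rw [hrs]
        have : D * |cc n| ≤ max 1 D * |cc n| := by gcongr
        linarith)
      (by
        have := hh.dv_le he.le ha.toAM
        rw [hc0, hr0]
        change |dv a h| ≤ _
        linarith [abs_nonneg c])
    intro n hn
    obtain ⟨i1, i2⟩ := main n hn
    obtain ⟨q1, q2', q3⟩ := hsq n hn
    simp only [Function.iterate_zero, id] at q1 q2' q3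
    rw [hc0, hr0] at q1 q2' q3
    have hq : 0 ≤ (|c| + ρ) / mean a :=
      div_nonneg (by positivity) (mean_nonneg ha.toLaw)
    have hC'C : C' ≤ C := by linarith
    refine ⟨i1, cc n, rr n, i2, q1.trans ?_, q2'.trans ?_, fun hρ0 hdv => q3 hρ0 ?_⟩
    · gcongr
    · gcongr
    · exact hdv

end Pool.Agent.Q291.MK
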